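import Pool.Agent.helper52.HY.Spec

set_option autoImplicit false

open Complex Metric Set Filter Topology MeasureTheory
open Pool.Agent.helper98.ILF Pool.Agent.helper16.Multibrot

noncomputable section

namespace HY

/-- bounded holomorphic functions are Lipschitz on the half disc. -/
theorem PIG_lip (G : ℂ → ℂ) (hG : DifferentiableOn ℂ G UD) (hm : MapsTo G UD UD) :
    ∀ x ∈ closedBall (0 : ℂ) (1 / 2), ∀ y ∈ closedBall (0 : ℂ) (1 / 2), ‖G x - G y‖ ≤ 4 * ‖x - y‖ := by
  have hsub : ∀ x ∈ closedBall (0 : ℂ) (1 / 2), closedBall x (1 / 4) ⊆ UD := by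
    intro x hx z hz
    rw [mem_closedBall, dist_zero_right] at hx
    rw [mem_closedBall, dist_eq_norm] at hz
    unfold UD
    rw [mem_ball, dist_zero_right]
    calc ‖z‖ = ‖(z - x) + x‖ := by rw [sub_add_cancel]
      _ ≤ ‖z - x‖ + ‖x‖ := norm_add_le _ _
      _ ≤ 1 / 4 + 1 / 2 := add_le_add hz hx
      _ < 1 := by norm_num
  have hop : IsOpen UD := isOpen_ball
  have hd : ∀ x ∈ closedBall (0 : ℂ) (1 / 2), DifferentiableAt ℂ G x := by
    intro x hx
    exact hG.differentiableAt (hop.mem_nhds (hsub x hx (mem_closedBall_self (by norm_num))))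
  have hb : ∀ x ∈ closedBall (0 : ℂ) (1 / 2), ‖deriv G x‖ ≤ 4 := by
    intro x hx
    have h1 : DiffContOnCl ℂ G (ball x (1 / 4)) := by
      refine DifferentiableOn.diffContOnCl ?_
      rw [closure_ball x (by norm_num : (1 / 4 : ℝ) ≠ 0)]
      exact hG.mono (hsub x hx)
    have h2 := Complex.norm_deriv_le_of_forall_mem_sphere_norm_le (c := x) (R := 1 / 4) (C := 1)
      (by norm_num) h1 (by
        intro z hz
        have h3 := hm (hsub x hx (sphere_subset_closedBall hz))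
        unfold UD at h3
        rw [mem_ball, dist_zero_right] at h3
        exact h3.le)
    refine h2.trans ?_
    norm_num
  intro x hx y hy
  have h1 := (convex_closedBall (0 : ℂ) (1 / 2)).norm_image_sub_le_of_norm_deriv_le hd hb hy hx
  exact h1

theorem PIG : PIG_stmt := by
  classical
  intro η hη
  obtain ⟨t₁, ht₁s, ht₁f, ht₁⟩ := (isCompact_closedBall (0 : ℂ) (1 / 2)).finite_cover_balls
    (by positivity : 0 < η / 16)
  obtain ⟨t₂, ht₂s, ht₂f, ht₂⟩ := (isCompact_closedBall (0 : ℂ) 1).finite_cover_balls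
    (by positivity : 0 < η / 8)
  have : Fintype t₁ := ht₁f.fintype
  have : Fintype t₂ := ht₂f.fintype
  refine ⟨Fintype.card (t₁ → t₂), ?_⟩
  intro ι G hcard hG
  -- the rounding
  have hround : ∀ i ∈ ι, ∃ F : t₁ → t₂, ∀ u : t₁, ‖G i u - F u‖ < η / 8 := by
    intro i hi
    have h1 : ∀ u : t₁, ∃ v : t₂, ‖G i u - v‖ < η / 8 := by
      intro u
      have h2 : (u : ℂ) ∈ UD := by
        have h3 := ht₁s u.2
        rw [mem_closedBall, dist_zero_right] at h3
        unfold UD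
        rw [mem_ball, dist_zero_right]
        linarith
      have h4 := (hG i hi).2 h2
      have h5 : G i u ∈ closedBall (0 : ℂ) 1 := ball_subset_closedBall h4
      obtain ⟨v, hv, hv2⟩ := mem_iUnion₂.1 (ht₂ h5)
      rw [mem_ball, dist_eq_norm] at hv2
      exact ⟨⟨v, hv⟩, hv2⟩
    choose F hF using h1
    exact ⟨F, hF⟩
  have hne : Nonempty (t₁ → t₂) := by
    have h0 : 0 < ι.card := lt_of_le_of_lt (Nat.zero_le _) hcard
    obtain ⟨i, hi⟩ := Finset.card_pos.1 h0
    exact ⟨(hround i hi).choose⟩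
  choose! F hF using hround
  obtain ⟨i, hi, l, hl, hil, hFil⟩ := Finset.exists_ne_map_eq_of_card_lt_of_maps_to
    (s := ι) (t := (Finset.univ : Finset (t₁ → t₂))) (f := F)
    (by rw [Finset.card_univ]; exact hcard) (fun i _ => Finset.mem_coe.2 (Finset.mem_univ _))
  have key : ∀ i ∈ ι, ∀ l ∈ ι, F i = F l → ∀ x ∈ closedBall (0 : ℂ) (1 / 2),
      ‖G i x - G l x‖ ≤ η := by
    intro i hi l hl hFil x hx
    obtain ⟨u, hu, hxu⟩ := mem_iUnion₂.1 (ht₁ hx)
    rw [mem_ball, dist_eq_norm] at hxu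
    have h1 := PIG_lip (G i) (hG i hi).1 (hG i hi).2 x hx u (ht₁s hu)
    have h2 := PIG_lip (G l) (hG l hl).1 (hG l hl).2 x hx u (ht₁s hu)
    have h3 := hF i hi ⟨u, hu⟩
    have h4 := hF l hl ⟨u, hu⟩
    rw [← hFil] at h4
    have h5 : G i x - G l x = (G i x - G i u) + (G i u - F i ⟨u, hu⟩) - (G l u - F i ⟨u, hu⟩) -
        (G l x - G l u) := by ring
    rw [h5]
    calc _ ≤ ‖(G i x - G i u) + (G i u - F i ⟨u, hu⟩) - (G l u - F i ⟨u, hu⟩)‖ + ‖G l x - G l u‖ :=
          norm_sub_le _ _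
      _ ≤ ‖(G i x - G i u) + (G i u - F i ⟨u, hu⟩)‖ + ‖G l u - F i ⟨u, hu⟩‖ + ‖G l x - G l u‖ := by
          have := norm_sub_le ((G i x - G i u) + (G i u - F i ⟨u, hu⟩)) (G l u - F i ⟨u, hu⟩)
          linarith
      _ ≤ ‖G i x - G i u‖ + ‖G i u - F i ⟨u, hu⟩‖ + ‖G l u - F i ⟨u, hu⟩‖ + ‖G l x - G l u‖ := by
          have := norm_add_le (G i x - G i u) (G i u - (F i ⟨u, hu⟩ : ℂ))
          linarith
      _ ≤ η := by
          linarith
  rcases lt_or_gt_of_ne hil with h | h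
  · exact ⟨i, hi, l, hl, h, key i hi l hl hFil⟩
  · exact ⟨l, hl, i, hi, h, key l hl i hi hFil.symm⟩

end HY
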